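import Pool.Agent.K7.H41.OP.Stm

set_option autoImplicit false

namespace Pool.Agent.K7.H10.OP.JX
open Pool.Agent.K7.H41.OP

theorem Lpow {n : ℕ} {k : ℕ} (hk : 0 < k) {v w : L n} (h : v ^ k = w ^ k) : v = w := by
  have h1 : k • Multiplicative.toAdd v = k • Multiplicative.toAdd w := by
    rw [← toAdd_pow, ← toAdd_pow, h]
  apply Multiplicative.toAdd.injective
  funext i
  have h2 := congrFun h1 i
  simp only [Pi.smul_apply, nsmul_eq_mul] at h2
  have h3 : (k : ℤ) ≠ 0 := by exact_mod_cast hk.ne'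
  exact mul_left_cancel₀ h3 h2

theorem Lone {n : ℕ} {k : ℕ} (hk : 0 < k) {v : L n} (h : v ^ k = 1) : v = 1 :=
  Lpow hk (by rw [h, one_pow])

theorem cos {G X : Type} [Group G] [Finite X] (H : Subgroup G) (f : G → X)
    (h : ∀ g g', f g = f g' → g⁻¹ * g' ∈ H) : H.FiniteIndex := by
  have : Finite (G ⧸ H) := by
    refine Finite.of_injective (fun q : G ⧸ H => f q.out) ?_
    intro q q' hq
    have h1 := h _ _ hq
    rw [← QuotientGroup.eq] at h1
    rwa [QuotientGroup.out_eq', QuotientGroup.out_eq'] at h1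
  exact Subgroup.finiteIndex_of_finite_quotient

variable {A : Type} [Group A] (D : Lat A)

theorem cen_map (θ : MulAut A) {w : A} (hw : w ∈ Subgroup.center A) :
    θ w ∈ Subgroup.center A := by
  rw [Subgroup.mem_center_iff] at hw ⊢
  intro g
  have h := hw (θ⁻¹ g)
  have h2 := congrArg θ h
  rw [map_mul, map_mul, MulAut.apply_inv_self] at h2
  exact h2

theorem r_comm {x : A} (h : x ∈ commutator A) : D.r x = 1 := by
  have h1 : commutator A ≤ D.r.ker := Abelianization.commutator_subset_ker D.r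
  exact h1 h

theorem comm_map (θ : MulAut A) {w : A} (hw : w ∈ commutator A) : θ w ∈ commutator A := by
  have h1 : commutator A ≤ ((Abelianization.of : A →* Abelianization A).comp
      (θ : A ≃* A).toMonoidHom).ker := Abelianization.commutator_subset_ker _
  have h2 : (Abelianization.of : A →* Abelianization A) (θ w) = 1 := h1 hw
  exact (QuotientGroup.eq_one_iff (N := commutator A) (θ w)).1 h2

/-- central elements of trivial image stay so -/
theorem zr (θ : MulAut A) {w : A} (hw : w ∈ Subgroup.center A) (h : D.r w = 1) :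
    D.r (θ w) = 1 := by
  have h1 := D.tor w hw h
  have h2 := r_comm D (comm_map θ h1)
  rw [map_pow, map_pow] at h2
  exact Lone D.ht h2

/-- central elements of the same image -/
theorem zr2 (θ : MulAut A) {w w' : A} (hw : w ∈ Subgroup.center A) (hw' : w' ∈ Subgroup.center A)
    (h : D.r w = D.r w') : D.r (θ w) = D.r (θ w') := by
  have h1 := zr D θ (w := w * w'⁻¹) (mul_mem hw (inv_mem hw')) (by
    rw [map_mul, map_inv, h, mul_inv_cancel])
  rw [map_mul, map_inv, map_mul, map_inv, mul_inv_eq_one] at h1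
  exact h1

theorem ex_act (θ : MulAut A) : ∃ f : L D.n →* L D.n, ∀ v, D.r (θ (D.s v)) = f v ^ D.c := by
  choose f hf using fun v => D.rc (θ (D.s v)) (cen_map θ (D.sc v))
  refine ⟨⟨⟨f, ?_⟩, ?_⟩, hf⟩
  · have h := hf 1
    rw [map_one, map_one, map_one] at h
    exact Lone D.hc h.symm
  · intro v w
    apply Lpow D.hc
    show f (v * w) ^ D.c = (f v * f w) ^ D.c
    rw [mul_pow, ← hf, ← hf, ← hf, map_mul, map_mul, map_mul]

/-- the action on the lattice -/
noncomputable def act (θ : MulAut A) : L D.n →* L D.n := Classical.choose (ex_act D θ)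

theorem act_s (θ : MulAut A) (v : L D.n) : D.r (θ (D.s v)) = act D θ v ^ D.c :=
  Classical.choose_spec (ex_act D θ) v

theorem act_w (θ : MulAut A) {w : A} (hw : w ∈ Subgroup.center A) {v : L D.n}
    (h : D.r w = v ^ D.c) : D.r (θ w) = act D θ v ^ D.c := by
  rw [← act_s]
  exact zr2 D θ hw (D.sc v) (by rw [h, D.rs])

theorem act_mul (θ ψ : MulAut A) (v : L D.n) : act D (θ * ψ) v = act D θ (act D ψ v) := by
  apply Lpow D.hc
  rw [← act_s, MulAut.mul_apply, act_w D θ (cen_map ψ (D.sc v)) (act_s D ψ v)]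

theorem act_one (v : L D.n) : act D 1 v = v := by
  apply Lpow D.hc
  rw [← act_s, MulAut.one_apply, D.rs]

theorem act_inv (θ : MulAut A) (v : L D.n) : act D θ⁻¹ (act D θ v) = v := by
  rw [← act_mul, inv_mul_cancel, act_one]

theorem act_inv' (θ : MulAut A) (v : L D.n) : act D θ (act D θ⁻¹ v) = v := by
  rw [← act_mul, mul_inv_cancel, act_one]

theorem tr_iff (θ : MulAut A) : Tr D θ ↔ ∀ v, act D θ v = v := by
  constructor
  · intro h v
    apply Lpow D.hc
    rw [← act_s, h _ (D.sc v), D.rs]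
  · intro h w hw
    obtain ⟨v, hv⟩ := D.rc w hw
    rw [act_w D θ hw hv, h, hv]

/-- automorphisms with trivial action -/
noncomputable def Aut2 : Subgroup (MulAut A) where
  carrier := {θ | Tr D θ}
  mul_mem' := by
    intro a b ha hb
    rw [Set.mem_ofPred_eq, tr_iff] at ha hb ⊢
    intro v
    rw [act_mul, hb, ha]
  one_mem' := by
    rw [Set.mem_ofPred_eq, tr_iff]
    exact act_one D
  inv_mem' := by
    intro a ha
    rw [Set.mem_ofPred_eq, tr_iff] at ha ⊢
    intro v
    have := act_inv D a v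
    rw [ha] at this
    exact this

theorem mem_Aut2 {θ : MulAut A} : θ ∈ Aut2 D ↔ ∀ v, act D θ v = v := tr_iff D θ

instance aut2_normal : (Aut2 D).Normal := by
  refine ⟨fun n hn g => ?_⟩
  rw [mem_Aut2] at hn ⊢
  intro v
  rw [act_mul, act_mul, hn, act_inv']

/-- `θ = j_X` -/
def IsJ (θ : MulAut A) (X : L D.n →* L D.n) : Prop := ∀ a, θ a = a * D.s (X (D.r a))

theorem act_j {θ : MulAut A} {X : L D.n →* L D.n} (h : IsJ D θ X) (v : L D.n) :
    act D θ v = v * X v ^ D.c := by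
  apply Lpow D.hc
  rw [← act_s, h, map_mul, D.rs, D.rs, map_pow, mul_pow]

/-- the subgroup of the `j_X` -/
noncomputable def J : Subgroup (MulAut A) where
  carrier := {θ | ∃ X, IsJ D θ X}
  mul_mem' := by
    rintro a b ⟨X, hX⟩ ⟨Y, hY⟩
    refine ⟨Y * X * (X.comp Y) ^ D.c, fun x => ?_⟩
    rw [MulAut.mul_apply, hY, hX, map_mul, D.rs, map_mul, map_pow]
    simp only [MonoidHom.mul_apply, MonoidHom.pow_apply, MonoidHom.comp_apply, map_mul, mul_assoc]
  one_mem' := ⟨1, fun x => by simp⟩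
  inv_mem' := by
    rintro a ⟨X, hX⟩
    refine ⟨(X.comp (act D a⁻¹))⁻¹, fun x => ?_⟩
    have h1 : D.r (a⁻¹ x) = act D a⁻¹ (D.r x) := by
      have h2 : D.r x = act D a (D.r (a⁻¹ x)) := by
        rw [act_j D hX]
        conv_lhs => rw [← MulAut.apply_inv_self A a x, hX]
        rw [map_mul, D.rs]
      rw [h2, act_inv]
    have h3 := hX (a⁻¹ x)
    rw [MulAut.apply_inv_self, h1] at h3
    rw [MonoidHom.inv_apply, map_inv, MonoidHom.comp_apply]
    exact eq_mul_inv_of_mul_eq h3.symm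

theorem mem_J {θ : MulAut A} : θ ∈ J D ↔ ∃ X, IsJ D θ X := Iff.rfl

/-- the automorphisms that are trivial modulo `c` on the lattice -/
noncomputable def Gam : Subgroup (MulAut A) where
  carrier := {θ | ∀ v, ∃ u, act D θ v = v * u ^ D.c}
  mul_mem' := by
    intro a b ha hb v
    obtain ⟨u, hu⟩ := hb v
    obtain ⟨u', hu'⟩ := ha v
    refine ⟨u' * act D a u, ?_⟩
    rw [act_mul, hu, map_mul, map_pow, hu', mul_pow, mul_assoc]
  one_mem' := fun v => ⟨1, by rw [act_one, one_pow, mul_one]⟩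
  inv_mem' := by
    intro a ha v
    obtain ⟨u, hu⟩ := ha (act D a⁻¹ v)
    refine ⟨u⁻¹, ?_⟩
    rw [act_inv'] at hu
    rw [inv_pow]
    exact eq_mul_inv_of_mul_eq hu.symm

theorem mem_Gam {θ : MulAut A} : θ ∈ Gam D ↔ ∀ v, ∃ u, act D θ v = v * u ^ D.c := Iff.rfl

theorem exX {θ : MulAut A} (h : θ ∈ Gam D) : ∃ X : L D.n →* L D.n, ∀ v,
    act D θ v = v * X v ^ D.c := by
  choose u hu using h
  refine ⟨⟨⟨u, ?_⟩, ?_⟩, hu⟩
  · have h1 := hu 1
    rw [map_one, one_mul] at h1
    exact Lone D.hc h1.symm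
  · intro v w
    have h1 := hu v
    have h2 := hu w
    have h3 := hu (v * w)
    apply Lpow D.hc
    rw [map_mul, h1, h2] at h3
    rw [mul_pow]
    have h4 : v * w * u (v * w) ^ D.c = v * w * (u v ^ D.c * u w ^ D.c) := by
      rw [← h3]
      exact mul_mul_mul_comm _ _ _ _
    exact mul_left_cancel h4

theorem exJ {θ : MulAut A} (h : θ ∈ Gam D) : ∃ j ∈ J D, θ * j⁻¹ ∈ Aut2 D := by
  obtain ⟨X, hX⟩ := exX D h
  obtain ⟨X', hX'⟩ := exX D (inv_mem h)
  have key : ∀ v, X v * X' (v * X v ^ D.c) = 1 := by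
    intro v
    have h1 := act_inv D θ v
    rw [hX', hX] at h1
    apply Lone D.hc
    rw [mul_pow]
    rw [mul_assoc] at h1
    exact mul_eq_left.1 h1
  have key' : ∀ v, X' v * X (v * X' v ^ D.c) = 1 := by
    intro v
    have h1 := act_inv' D θ v
    rw [hX, hX'] at h1
    apply Lone D.hc
    rw [mul_pow]
    rw [mul_assoc] at h1
    exact mul_eq_left.1 h1
  let j : MulAut A :=
    { toFun := fun a => a * D.s (X (D.r a))
      invFun := fun a => a * D.s (X' (D.r a))
      left_inv := by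
        intro a
        have h1 := key (D.r a)
        show a * D.s (X (D.r a)) * D.s (X' (D.r (a * D.s (X (D.r a))))) = a
        rw [map_mul, D.rs, mul_assoc, ← map_mul, h1, map_one, mul_one]
      right_inv := by
        intro a
        have h1 := key' (D.r a)
        show a * D.s (X' (D.r a)) * D.s (X (D.r (a * D.s (X' (D.r a))))) = a
        rw [map_mul, D.rs, mul_assoc, ← map_mul, h1, map_one, mul_one]
      map_mul' := by
        intro a b
        have h1 := Subgroup.mem_center_iff.1 (D.sc (X (D.r a))) b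
        show a * b * D.s (X (D.r (a * b))) = a * D.s (X (D.r a)) * (b * D.s (X (D.r b)))
        rw [map_mul, map_mul, map_mul, mul_assoc, mul_assoc, ← mul_assoc b, h1, mul_assoc] }
  have hj : IsJ D j X := fun a => rfl
  refine ⟨j, ⟨X, hj⟩, ?_⟩
  rw [mem_Aut2]
  intro v
  rw [act_mul]
  have h1 : act D θ (act D j⁻¹ v) = act D j (act D j⁻¹ v) := by
    rw [hX, act_j D hj]
  rw [h1, act_inv']

/-- the reduction of the action modulo `c` -/
noncomputable def red (θ : MulAut A) (i j : Fin D.n) : ZMod D.c :=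
  ((Multiplicative.toAdd (act D θ (Multiplicative.ofAdd (Pi.single i (1 : ℤ)))) j : ℤ) : ZMod D.c)

theorem red_all {θ ψ : MulAut A} (h : red D θ = red D ψ) (v : L D.n) :
    ∃ u, act D ψ v = act D θ v * u ^ D.c := by
  have hc : (D.c : ℤ) ≠ 0 := by exact_mod_cast D.hc.ne'
  have key : ∀ (x : Fin D.n → ℤ) (j : Fin D.n),
      ((Multiplicative.toAdd (act D θ (Multiplicative.ofAdd x)) j : ℤ) : ZMod D.c) =
      ((Multiplicative.toAdd (act D ψ (Multiplicative.ofAdd x)) j : ℤ) : ZMod D.c) := by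
    intro x j
    let F : MulAut A → ((Fin D.n → ℤ) →+ ZMod D.c) := fun θ =>
      { toFun := fun x => ((Multiplicative.toAdd (act D θ (Multiplicative.ofAdd x)) j : ℤ) :
          ZMod D.c)
        map_zero' := by
          simp
        map_add' := by
          intro x y
          rw [ofAdd_add, map_mul, toAdd_mul, Pi.add_apply, Int.cast_add] }
    have hF : F θ = F ψ := by
      refine AddMonoidHom.functions_ext' _ _ _ fun i => ?_
      apply AddMonoidHom.ext_int
      have := congrFun (congrFun h i) j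
      simpa [F, red] using this
    exact DFunLike.congr_fun hF x
  have h1 : ∀ j, ∃ u : ℤ, Multiplicative.toAdd (act D ψ v) j =
      Multiplicative.toAdd (act D θ v) j + D.c * u := by
    intro j
    have h2 := key (Multiplicative.toAdd v) j
    rw [ofAdd_toAdd] at h2
    rw [ZMod.intCast_eq_intCast_iff_dvd_sub] at h2
    obtain ⟨u, hu⟩ := h2
    exact ⟨u, by linarith⟩
  choose u hu using h1
  refine ⟨Multiplicative.ofAdd u, ?_⟩
  apply Multiplicative.toAdd.injective
  funext j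
  rw [toAdd_mul, toAdd_pow, toAdd_ofAdd, Pi.add_apply, Pi.smul_apply, hu, nsmul_eq_mul]

theorem gam_fin : (Gam D).FiniteIndex := by
  have : NeZero D.c := ⟨D.hc.ne'⟩
  refine cos (Gam D) (red D) ?_
  intro g g' h v
  obtain ⟨u, hu⟩ := red_all D h v
  refine ⟨act D g⁻¹ u, ?_⟩
  rw [act_mul, hu, map_mul, map_pow, act_inv]

theorem inn_le_aut2 : Inn A ≤ Aut2 D := by
  rintro θ ⟨g, rfl⟩
  show Tr D _
  intro w hw
  rw [MulAut.conj_apply, Subgroup.mem_center_iff.1 hw g, mul_inv_cancel_right]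

theorem t : StJ := by
  intro A _ _ D K0 hK0 hfin hInn
  have hN : (K0 ⊓ Aut2 D).Normal := inferInstance
  have hmem : ∀ θ : MulAut A, θ ∈ (K0 ⊓ Aut2 D) ⊔ J D ↔
      ∃ y ∈ (K0 ⊓ Aut2 D), ∃ z ∈ J D, y * z = θ := by
    intro θ
    exact Subgroup.mem_sup_of_normal_left
  refine ⟨(K0 ⊓ Aut2 D) ⊔ J D, ?_, ?_, ?_, ?_, ?_⟩
  · have h1 : (Gam D).FiniteIndex := gam_fin D
    have h2 : Finite (MulAut A ⧸ Gam D) := Subgroup.finite_quotient_of_finiteIndex
    have h3 : Finite (MulAut A ⧸ K0) := Subgroup.finite_quotient_of_finiteIndex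
    have h4 : ∀ θ : MulAut A, ∃ j : MulAut A, θ ∈ Gam D → j ∈ J D ∧ θ * j⁻¹ ∈ Aut2 D := by
      intro θ
      by_cases h : θ ∈ Gam D
      · obtain ⟨j, hj, hj'⟩ := exJ D h
        exact ⟨j, fun _ => ⟨hj, hj'⟩⟩
      · exact ⟨1, fun h' => absurd h' h⟩
    choose j hj using h4
    refine cos (X := (MulAut A ⧸ Gam D) × (MulAut A ⧸ K0)) _
      (fun θ => ((θ : MulAut A ⧸ Gam D),
        (((((θ : MulAut A ⧸ Gam D).out)⁻¹ * θ) *
          (j (((θ : MulAut A ⧸ Gam D).out)⁻¹ * θ))⁻¹ : MulAut A) : MulAut A ⧸ K0))) ?_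
    intro θ θ' h
    have h5 := congrArg Prod.fst h
    have h6 := congrArg Prod.snd h
    simp only at h5 h6
    rw [← h5] at h6
    set g : MulAut A := (θ : MulAut A ⧸ Gam D).out with hg
    have h7 : g⁻¹ * θ ∈ Gam D := by
      rw [← QuotientGroup.eq, hg, QuotientGroup.out_eq']
    have h8 : g⁻¹ * θ' ∈ Gam D := by
      rw [← QuotientGroup.eq, hg, QuotientGroup.out_eq', h5]
    obtain ⟨h9, h10⟩ := hj _ h7
    obtain ⟨h11, h12⟩ := hj _ h8
    rw [QuotientGroup.eq] at h6
    set γ := g⁻¹ * θ with hγ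
    set γ' := g⁻¹ * θ' with hγ'
    have h13 : (γ * (j γ)⁻¹)⁻¹ * (γ' * (j γ')⁻¹) ∈ K0 ⊓ Aut2 D :=
      Subgroup.mem_inf.2 ⟨h6, mul_mem (inv_mem h10) h12⟩
    have h14 : θ⁻¹ * θ' = (j γ)⁻¹ * ((γ * (j γ)⁻¹)⁻¹ * (γ' * (j γ')⁻¹)) * j γ' := by
      rw [hγ, hγ']; group
    rw [h14]
    have hl : K0 ⊓ Aut2 D ≤ (K0 ⊓ Aut2 D) ⊔ J D := le_sup_left
    have hr : J D ≤ (K0 ⊓ Aut2 D) ⊔ J D := le_sup_right
    exact mul_mem (mul_mem (inv_mem (hr h9)) (hl h13)) (hr h11)
  · exact le_trans (le_inf hInn (inn_le_aut2 D)) le_sup_left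
  · intro θ hθ hT
    obtain ⟨n, hn, z, ⟨X, hz⟩, rfl⟩ := (hmem θ).1 hθ
    have h1 : z ∈ Aut2 D := by
      have h2 : n⁻¹ * (n * z) ∈ Aut2 D := mul_mem (inv_mem hn.2) hT
      rwa [inv_mul_cancel_left] at h2
    have h3 : ∀ v, X v = 1 := by
      intro v
      have h4 := act_j D hz v
      rw [(mem_Aut2 D).1 h1] at h4
      exact Lone D.hc (mul_eq_left.1 h4.symm)
    have h5 : z = 1 := by
      ext a
      rw [hz a, h3, map_one, mul_one, MulAut.one_apply]
    rw [h5, mul_one]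
    exact hn.1
  · intro θ hθ hT
    exact (le_sup_left : K0 ⊓ Aut2 D ≤ _) ⟨hθ, hT⟩
  · intro θ X hX
    exact (le_sup_right : J D ≤ _) ⟨X, hX⟩

end Pool.Agent.K7.H10.OP.JX
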